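import Pool.Agent.Zk59.SicC

/-!
# Asymptotic Weyl–Heisenberg SIC fiducials in infinitely many dimensions

A unit vector `ψ ∈ ℂ ^ d` is a Weyl–Heisenberg SIC fiducial if
`(d + 1) |⟨ψ, X ^ a Z ^ b ψ⟩| ^ 2 = 1` for all `(a, b) ≠ (0, 0)`. We show that these `d ^ 2 - 1`
equations can be solved simultaneously up to errors that tend to zero as `d` grows, in all prime
dimensions `d` and in all dimensions `d = q - 1` with a prime power `q`: there are unit vectors with
`|(d + 1) |⟨ψ, X ^ a Z ^ b ψ⟩| ^ 2 - 1| ≤ 161 d ^ (- 1 / 4)` for all `(a, b) ≠ (0, 0)`.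

Proof. In prime dimensions the overlaps of the vector of Alltop (cubic phases) have modulus
`1 / √d` if `a ≠ 0`, but they are zero if `a = 0`. We add `d ^ (- 1 / 4)` times a basis vector: its
overlaps are `1` for `a = 0` and zero for `a ≠ 0`, and with the weight `d ^ (- 1 / 2)` this is the
right size, whereas all mixed terms have size `d ^ (- 1 / 4) / √d`. In dimension `q - 1` we take the
values of an additive character at the powers of a primitive element of the field with `q` elements,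
where the overlaps are too small on the two axes `a = 0` and `b = 0` (Gauss sums), and we add
multiples of a basis vector and of the constant vector.
-/

set_option autoImplicit false

namespace Pool.Agent.Results.MP_1c78a5_mp.AsymptoticFiducials

/-- `⟨ψ, X ^ a Z ^ b ψ⟩` for the shift `X |j⟩ = |j + 1⟩` and the clock `Z |j⟩ = ω ^ j |j⟩` with
`ω = exp (2 π i / d)`, so that `(X ^ a Z ^ b ψ) (j + a) = ω ^ (b j) ψ j` -/
noncomputable def overlap {d : ℕ} [NeZero d] (ψ : ZMod d → ℂ) (a b : ZMod d) : ℂ :=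
  ∑ j : ZMod d, star (ψ (j + a)) *
    (Complex.exp (2 * Real.pi * Complex.I * ((b * j).val : ℂ) / (d : ℂ)) * ψ j)

theorem overlap_eq {d : ℕ} [NeZero d] (ψ : ZMod d → ℂ) (a b : ZMod d) :
    overlap ψ a b = R503.SIC.ov ψ a b := by
  unfold overlap R503.SIC.ov R503.SIC.e
  refine Finset.sum_congr rfl fun j _ => ?_
  rw [ZMod.stdAddChar_apply, ZMod.toCircle_apply]
  rfl

theorem bt_eq (d : ℕ) : Zk59.Sic.bt d = 1 / (d : ℝ) ^ (1 / 4 : ℝ) := by
  unfold Zk59.Sic.bt
  rw [Real.sqrt_eq_rpow, Real.sqrt_eq_rpow, ← Real.rpow_mul (by positivity)]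
  norm_num

/-- In every dimension `d` which is a prime or a prime power minus one there is a unit vector `ψ`
such that all the numbers `(d + 1) |⟨ψ, X ^ a Z ^ b ψ⟩| ^ 2`, `(a, b) ≠ (0, 0)`, differ from `1` by
at most `161 d ^ (- 1 / 4)`. -/
theorem result (d : ℕ) [NeZero d] (hd : d.Prime ∨ IsPrimePow (d + 1)) :
    ∃ ψ : ZMod d → ℂ, ∑ j, ‖ψ j‖ ^ 2 = 1 ∧ ∀ a b : ZMod d, (a, b) ≠ (0, 0) →
      |((d : ℝ) + 1) * ‖overlap ψ a b‖ ^ 2 - 1| ≤ 161 / (d : ℝ) ^ (1 / 4 : ℝ) := by
  have h161 : ∀ x : ℝ, x ≤ 161 * Zk59.Sic.bt d → x ≤ 161 / (d : ℝ) ^ (1 / 4 : ℝ) := by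
    intro x hx
    rw [bt_eq] at hx
    rwa [mul_one_div] at hx
  simp only [overlap_eq]
  by_cases hq : IsPrimePow (d + 1)
  · obtain ⟨φ, h1, h2⟩ := Zk59.Sic.prime_pow_case hq
    exact ⟨φ, h1, fun a b hab => h161 _ (h2 a b hab)⟩
  · have hp := hd.resolve_right hq
    have h5 : 5 ≤ d := by
      by_contra h
      push Not at h
      have h2 := hp.two_le
      interval_cases d
      · exact hq (Nat.prime_three.isPrimePow)
      · exact hq ((isPrimePow_nat_iff 4).2 ⟨2, 2, Nat.prime_two, by norm_num, by norm_num⟩)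
      · exact absurd hp (by norm_num)
    obtain ⟨φ, h1, h2⟩ := Zk59.Sic.prime_case hp h5
    refine ⟨φ, h1, fun a b hab => h161 _ ((h2 a b hab).trans ?_)⟩
    have := Zk59.Sic.bt_pos (d := d)
    linarith

end Pool.Agent.Results.MP_1c78a5_mp.AsymptoticFiducials
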