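import Pool.Agent.Zk62.Sic.Main

/-!
# Weyl–Heisenberg orbits of optimal coherence, up to a constant, in every dimension

A unit vector `ψ ∈ ℂ ^ d` is a Weyl–Heisenberg SIC fiducial if
`(d + 1) |⟨ψ, X ^ a Z ^ b ψ⟩| ^ 2 = 1` for all `(a, b) ≠ (0, 0)`. For every unit vector the mean of
these `d ^ 2 - 1` numbers is `1`, so a fiducial is a unit vector for which their maximum is `1`. We
show that in EVERY dimension `d` there is a unit vector for which the maximum is at most `54`.

(Random vectors give a maximum of order `log d`. The vector of Alltop gives `1 + 1 / d`, but only in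
prime dimensions `d ≥ 5`; the finite fields give a bounded maximum in the dimensions `q - 1` for
prime powers `q`. The tensor products of vectors in smaller dimensions do not have this property.)

Proof. Let `d ≥ 53`, and let `p` be a prime with `2 d < p ≤ 4 d`. Let
`g m = sin (π m / 2d) exp (2 π i (m ^ 3 / p + θ m))` for `0 ≤ m < 2 d`, and let `ψ` be a multiple of
the periodisation `j ↦ g j + g (j + d)`, `0 ≤ j < d`. (1) As `sin ^ 2 + cos ^ 2 = 1`, the
periodisation of `|g| ^ 2` is constant, and therefore the overlaps with `a = 0` have no diagonal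
term. (2) The overlap for `(a, b)` is the sum of the correlations of `g` with the (at most four)
shifts `s ≡ a` modulo `d`, `s ≠ 0`, `|s| ≤ 2 d`. Such a correlation is a sum over the residues modulo
`p` of a quadratic phase, with leading coefficient `- 3 s ≠ 0`, times a window which is continuous
on the circle. By completion it is at most `1 / √p` times the `ℓ ^ 1` norm of the Fourier transform
of the window. (3) This norm is estimated by the Cauchy-Schwarz inequality with the Poisson kernel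
as a weight, from the `ℓ ^ 2` norms of the window and of its differences, and these norms are
almost orthogonal in `s`. (4) With a suitable `θ` the norm of the periodisation is at least `√d`.
-/

set_option autoImplicit false

namespace Pool.Agent.Results.MP_1c78a5_mp.EveryDimension

/-- `⟨ψ, X ^ a Z ^ b ψ⟩` for the shift `X |j⟩ = |j + 1⟩` and the clock `Z |j⟩ = ω ^ j |j⟩` with
`ω = exp (2 π i / d)`, so that `(X ^ a Z ^ b ψ) (j + a) = ω ^ (b j) ψ j` -/
noncomputable def overlap {d : ℕ} [NeZero d] (ψ : ZMod d → ℂ) (a b : ZMod d) : ℂ :=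
  ∑ j : ZMod d, star (ψ (j + a)) *
    (Complex.exp (2 * Real.pi * Complex.I * ((b * j).val : ℂ) / (d : ℂ)) * ψ j)

theorem overlap_eq {d : ℕ} [NeZero d] (ψ : ZMod d → ℂ) (a b : ZMod d) :
    overlap ψ a b = R503.SIC.ov ψ a b := by
  unfold overlap R503.SIC.ov R503.SIC.e
  refine Finset.sum_congr rfl fun j _ => ?_
  rw [ZMod.stdAddChar_apply, ZMod.toCircle_apply]
  rfl

/-- In every dimension `d ≥ 1` there is a unit vector `ψ` such that
`(d + 1) |⟨ψ, X ^ a Z ^ b ψ⟩| ^ 2 ≤ 54` for all `(a, b) ≠ (0, 0)`. Consequently the moments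
`∑ |⟨ψ, X ^ a Z ^ b ψ⟩| ^ (2 n)`, `n ≥ 1` (sum over `(a, b) ≠ (0, 0)`), are at most `54 ^ (n - 1)` times
the value `(d - 1) / (d + 1) ^ (n - 1)` which they would have for a fiducial, and which is the least
possible one; so all the stabilizer Rényi entropies of `ψ` are maximal up to a constant. -/
theorem result (d : ℕ) [NeZero d] :
    ∃ ψ : ZMod d → ℂ, ∑ j, ‖ψ j‖ ^ 2 = 1 ∧
      (∀ a b : ZMod d, (a, b) ≠ (0, 0) → ((d : ℝ) + 1) * ‖overlap ψ a b‖ ^ 2 ≤ 54) ∧
      ∀ n : ℕ, 1 ≤ n → ∑ q ∈ Finset.univ.erase ((0, 0) : ZMod d × ZMod d),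
        ‖overlap ψ q.1 q.2‖ ^ (2 * n) ≤ 54 ^ (n - 1) * (((d : ℝ) - 1) / ((d : ℝ) + 1) ^ (n - 1)) := by
  have key : ∃ ψ : ZMod d → ℂ, ∑ j, ‖ψ j‖ ^ 2 = 1 ∧ ∀ a b : ZMod d, (a, b) ≠ (0, 0) →
      ((d : ℝ) + 1) * ‖R503.SIC.ov ψ a b‖ ^ 2 ≤ 54 := by
    rcases Nat.lt_or_ge d 53 with hd | hd
    · refine ⟨fun j => if j = 0 then 1 else 0, ?_, fun a b _ => ?_⟩
      · rw [Finset.sum_eq_single 0]
        · simp
        · intro j _ hj
          simp [hj]
        · simp
      have h1 : ‖R503.SIC.ov (fun j : ZMod d => if j = 0 then (1 : ℂ) else 0) a b‖ ≤ 1 := by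
        unfold R503.SIC.ov
        rw [Finset.sum_eq_single 0]
        · rw [norm_mul, norm_mul, R503.SIC.norm_e, R503.SIC.norm_conj']
          change ‖(if 0 + a = 0 then (1 : ℂ) else 0)‖ * (1 * ‖(if (0 : ZMod d) = 0 then (1 : ℂ) else 0)‖) ≤ 1
          split_ifs <;> simp
        · intro j _ hj
          simp [hj]
        · simp
      have h2 : ‖R503.SIC.ov (fun j : ZMod d => if j = 0 then (1 : ℂ) else 0) a b‖ ^ 2 ≤ 1 :=
        pow_le_one₀ (norm_nonneg _) h1
      have h3 : (d : ℝ) + 1 ≤ 54 := by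
        have : (d : ℝ) ≤ 53 := by exact_mod_cast hd.le
        linarith
      calc ((d : ℝ) + 1) * _ ≤ 54 * 1 := mul_le_mul h3 h2 (by positivity) (by norm_num)
        _ = 54 := by norm_num
    · obtain ⟨_, ψ, h1, h2⟩ := Zk62.Sic.large hd
      exact ⟨ψ, h1, h2⟩
  obtain ⟨ψ, h1, h2⟩ := key
  simp only [overlap_eq]
  refine ⟨ψ, h1, h2, fun n hn => ?_⟩
  have hd1 : (0 : ℝ) < (d : ℝ) + 1 := by positivity
  have h3 : ∑ q ∈ Finset.univ.erase ((0, 0) : ZMod d × ZMod d), ‖R503.SIC.ov ψ q.1 q.2‖ ^ 2 =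
      (d : ℝ) - 1 := by
    have h4 := (R503.SIC.sd_g ψ).sum
    rw [R503.SIC.g_zero h1, ← Finset.add_sum_erase _ _ (Finset.mem_univ (0 : ZMod d × ZMod d)),
      R503.SIC.g_zero h1] at h4
    have h5 : ∑ q ∈ Finset.univ.erase (0 : ZMod d × ZMod d), R503.SIC.g ψ q = (d : ℝ) - 1 := by
      linarith
    exact h5
  obtain ⟨m, rfl⟩ := Nat.exists_eq_add_of_le' hn
  rw [Nat.add_sub_cancel]
  calc ∑ q ∈ Finset.univ.erase ((0, 0) : ZMod d × ZMod d), ‖R503.SIC.ov ψ q.1 q.2‖ ^ (2 * (m + 1)) ≤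
      ∑ q ∈ Finset.univ.erase ((0, 0) : ZMod d × ZMod d),
        (54 / ((d : ℝ) + 1)) ^ m * ‖R503.SIC.ov ψ q.1 q.2‖ ^ 2 := by
        refine Finset.sum_le_sum fun q hq => ?_
        rw [pow_mul, pow_succ]
        apply mul_le_mul_of_nonneg_right _ (by positivity)
        apply pow_le_pow_left₀ (by positivity)
        rw [le_div_iff₀ hd1, mul_comm]
        exact h2 q.1 q.2 (Finset.ne_of_mem_erase hq)
    _ = _ := by
        rw [← Finset.mul_sum, h3, div_pow]
        ring

end Pool.Agent.Results.MP_1c78a5_mp.EveryDimension
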