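import Mathlib
import Pool.Agent.Zk49.SF.Str

/-!
# The order of the Clifford symmetry group of a Weyl–Heisenberg SIC fiducial

Let `ψ` be a Weyl–Heisenberg SIC fiducial in dimension `d` and `N` the order of its symmetry group in
the Clifford group modulo scalars. If `N` is even, `d + 1` is a square. A prime `p ≥ 5` which divides
`q ^ 2 - 1` for no prime divisor `q` of `d` (for instance the largest prime divisor of `d`, or the
prime of which `d` is a power) does not divide `N`. For `d ≠ 3`, `N` divides the number of elements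
of order `d` of `(ℤ / d) ^ 2`. For a prime power `d = p ^ k` other than `3` and `8` this gives: `N`
is odd, and divides `p ^ 2 - 1` if `p ≠ 3`; so `N ∣ 3` for `d = 2 ^ k`; and `N ∣ 3` for `d = 3 ^ k`,
`k ≥ 3`.

If a prime `q ≥ 5` satisfies `q > d / q + 2` (for instance for about 69 percent of all dimensions `d`
the largest prime factor), or more generally `d = q ^ k m` with `m` prime to `q`, `m + 2 < q ^ k`, and
`q` divides `r ^ 2 - 1` for no prime divisor `r` of `m`, the symmetry group is isomorphic to a subgroup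
of `SL(2, q)` of order prime to `q`, and `N` divides `q ^ 2 - 1`; if moreover `N` is odd (for instance if
`d + 1` is not a square), the symmetry group is cyclic and its order divides `q - 1` or `q + 1`. In
particular this holds for all powers of primes `q ≥ 5`.

Idea of the proof. A symmetry `U` of prime order `n` modulo scalars commutes with the `κ`
displacement operators it fixes; its powers have traces of modulus `√κ`, and the projection onto its
eigenspace containing `ψ` is a combination of `d ^ 2 / κ` displacement operators, which bounds its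
rank from both sides and gives `(n - 1) κ ≤ d + n √κ`. An automorphism of `(ℤ / d) ^ 2` of prime
order `p ≥ 5` as above is trivial on `p (ℤ / d) ^ 2`, and has too many fixed points. An automorphism
of prime order fixing a vector of order `d` also has too many fixed points, so the symmetry group
acts freely on these vectors. If `n = 2`, all terms of the expansion of `⟨ψ, U ψ⟩ = 1` are real. A
symmetry which is trivial modulo `q` fixes all vectors of order dividing `q ^ k`, again too many.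
-/

set_option autoImplicit false

namespace Pool.Agent.Results.MP_1c78a5_mp.OrderOfTheSymmetryGroup

open Matrix

variable {d : ℕ} [NeZero d]

/-- `ω ^ x` for a residue `x` modulo `d`, where `ω = exp (2 π i / d)` -/
noncomputable def omegaPow (x : ZMod d) : ℂ :=
  Complex.exp (2 * Real.pi * Complex.I * (x.val : ℂ) / (d : ℂ))

/-- the displacement operator `X ^ a Z ^ b`, which maps `|j⟩` to `ω ^ (b j) |j + a⟩` -/
noncomputable def displacement (a b : ZMod d) : Matrix (ZMod d) (ZMod d) ℂ :=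
  Matrix.of fun i j => if i = j + a then omegaPow (b * j) else 0

/-- `ψ` is a Weyl–Heisenberg SIC fiducial: a unit vector with
`|⟨ψ, X ^ a Z ^ b ψ⟩| ^ 2 = 1 / (d + 1)` for all `(a, b) ≠ (0, 0)` -/
def IsFiducial (ψ : ZMod d → ℂ) : Prop :=
  ∑ j, ‖ψ j‖ ^ 2 = 1 ∧ ∀ a b : ZMod d, (a, b) ≠ (0, 0) →
    ‖star ψ ⬝ᵥ (displacement a b *ᵥ ψ)‖ ^ 2 = 1 / ((d : ℝ) + 1)

/-- `U` belongs to the Clifford group: it is unitary and conjugates displacement operators to
displacement operators up to scalars -/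
def IsClifford (U : Matrix (ZMod d) (ZMod d) ℂ) : Prop :=
  U ∈ unitaryGroup (ZMod d) ℂ ∧ ∀ a b : ZMod d, ∃ (a' b' : ZMod d) (c : ℂ),
    U * displacement a b * star U = c • displacement a' b'

/-- `U` is a Clifford symmetry of `ψ`: it belongs to the Clifford group and has `ψ` as an
eigenvector -/
def IsSymmetry (ψ : ZMod d → ℂ) (U : Matrix (ZMod d) (ZMod d) ℂ) : Prop :=
  IsClifford U ∧ ∃ l : ℂ, U *ᵥ ψ = l • ψ

/-- the set of all multiples of a matrix -/
def multiples (U : Matrix (ZMod d) (ZMod d) ℂ) : Set (Matrix (ZMod d) (ZMod d) ℂ) :=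
  {W | ∃ c : ℂ, W = c • U}

/-- the number of Clifford symmetries of `ψ`, counted up to scalar factors: the order of the symmetry
group of `ψ` in the Clifford group modulo scalars -/
noncomputable def symmetryOrder (ψ : ZMod d → ℂ) : ℕ :=
  Set.ncard {L | ∃ U, IsSymmetry ψ U ∧ L = multiples U}

theorem omegaPow_eq (x : ZMod d) : omegaPow x = R503.SIC.e x := by
  unfold omegaPow R503.SIC.e
  rw [ZMod.stdAddChar_apply, ZMod.toCircle_apply]

theorem displacement_eq (a b : ZMod d) : displacement a b = R503.SIC.Dm a b := by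
  ext i j
  simp only [displacement, R503.SIC.Dm, Matrix.of_apply, omegaPow_eq]

theorem fid_iff (ψ : ZMod d → ℂ) : IsFiducial ψ ↔ R503.SIC.Fid ψ := by
  unfold IsFiducial R503.SIC.Fid
  have h : ∀ a b : ZMod d, star ψ ⬝ᵥ (displacement a b *ᵥ ψ) = R503.SIC.ov ψ a b := by
    intro a b
    rw [displacement_eq]
    exact Zk49.SF.ex_D ψ (a, b)
  simp only [h]

theorem clifford {U : Matrix (ZMod d) (ZMod d) ℂ} (hU : IsClifford U) :
    star U * U = 1 ∧ R503.SIC.Nrm U := by
  have h1 : star U * U = 1 := (Matrix.mem_unitaryGroup_iff').1 hU.1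
  refine ⟨h1, fun a b => ?_⟩
  obtain ⟨a', b', c, h⟩ := hU.2 a b
  refine ⟨a', b', c, ?_⟩
  rw [← displacement_eq, ← displacement_eq, ← Matrix.smul_mul, ← h, mul_assoc, h1, mul_one]

theorem clifford' {U : Matrix (ZMod d) (ZMod d) ℂ} (h1 : star U * U = 1)
    (h2 : R503.SIC.Nrm U) : IsClifford U := by
  have h1' : U * star U = 1 := mul_eq_one_comm.1 h1
  refine ⟨(Matrix.mem_unitaryGroup_iff').2 h1, fun a b => ?_⟩
  obtain ⟨a', b', c, h⟩ := h2 a b
  refine ⟨a', b', c, ?_⟩
  rw [displacement_eq, displacement_eq, h, Matrix.smul_mul, mul_assoc, h1', mul_one]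

theorem order_eq {ψ : ZMod d → ℂ} (hψ : IsFiducial ψ) :
    symmetryOrder ψ = Nat.card (Zk49.SF.Hs ψ) := by
  have hf := (fid_iff ψ).1 hψ
  have hch : ∀ σ : Zk49.SF.Hs ψ, ∃ A, Zk49.SF.Sy ψ A ∧ Zk49.SF.Ind A σ.1 := fun σ => σ.2
  choose A hA hAi using hch
  have hinj : Function.Injective fun σ => multiples (A σ) := by
    intro σ τ h
    have h1 : A σ ∈ multiples (A τ) := by
      rw [← show multiples (A σ) = multiples (A τ) from h]
      exact ⟨1, (one_smul _ _).symm⟩
    obtain ⟨c, hc⟩ := h1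
    have h2 := hAi σ
    have h3 : Zk49.SF.Ind (A σ) τ.1 := by rw [hc]; exact (hAi τ).smul c
    exact Subtype.ext (Equiv.coe_fn_injective (Zk49.SF.Ind.ext (hA σ).isUnit h2 h3))
  have hrange : {L | ∃ U, IsSymmetry ψ U ∧ L = multiples U} =
      Set.range fun σ => multiples (A σ) := by
    ext L
    constructor
    · rintro ⟨U, ⟨hC, l, hl⟩, rfl⟩
      obtain ⟨h1, h2⟩ := clifford hC
      obtain ⟨hl0, hS⟩ := Zk49.SF.toSy hf h1 h2 hl
      obtain ⟨σ, hσ⟩ := hS.ind
      have hmem : σ ∈ Zk49.SF.Hs ψ := ⟨_, hS, hσ⟩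
      refine ⟨⟨σ, hmem⟩, ?_⟩
      -- `A σ` and `l⁻¹ U` agree
      have h3 : A ⟨σ, hmem⟩ * star (l⁻¹ • U) = 1 := by
        apply Zk49.SF.one_of_id hf ((hA _).mul hS.star)
        have h4 := (hAi ⟨σ, hmem⟩).mul (hσ.inv hS.uni hS.uni')
        have h5 : (⇑σ ∘ ⇑(σ⁻¹ : Equiv.Perm (ZMod d × ZMod d))) =
            ⇑(1 : Equiv.Perm (ZMod d × ZMod d)) := by
          funext x
          exact σ.apply_symm_apply x
        rw [← h5]
        exact h4
      have h4 : A ⟨σ, hmem⟩ = l⁻¹ • U := by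
        calc A ⟨σ, hmem⟩ = A ⟨σ, hmem⟩ * (star (l⁻¹ • U) * (l⁻¹ • U)) := by rw [hS.uni, mul_one]
          _ = l⁻¹ • U := by rw [← mul_assoc, h3, one_mul]
      change multiples (A ⟨σ, hmem⟩) = multiples U
      rw [h4]
      ext W
      constructor
      · rintro ⟨c, hc⟩
        exact ⟨c * l⁻¹, by rw [hc, smul_smul]⟩
      · rintro ⟨c, hc⟩
        exact ⟨c * l, by rw [hc, smul_smul, mul_assoc, mul_inv_cancel₀ hl0, mul_one]⟩
    · rintro ⟨σ, rfl⟩
      exact ⟨A σ, ⟨clifford' (hA σ).uni (hA σ).nrm, 1, by rw [(hA σ).fix, one_smul]⟩, rfl⟩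
  unfold symmetryOrder
  rw [hrange, ← Nat.card_coe_set_eq, Nat.card_range_of_injective hinj]

/-- **The order of the symmetry group of a fiducial.** Let `ψ` be a Weyl–Heisenberg SIC fiducial in
dimension `d` and `N` the order of its symmetry group in the Clifford group modulo scalars.
(1) If `N` is even, `d + 1` is a square. (2) No prime `p ≥ 5` divides `N` which divides `q ^ 2 - 1`
for no prime divisor `q` of `d`. (3) If `d ≠ 3`, `N` divides the number of elements of order `d` in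
`(ℤ / d) ^ 2`. (4) If `d = p ^ k` is a prime power, `d ≠ 3, 8`, then `N` is odd; it divides
`p ^ 2 - 1` if `p ≠ 3` (so `N ∣ 3` if `p = 2`), `9` if `d = 9`, and `3` if `d = 3 ^ k` with
`k ≥ 3`. (5) Let `d = q ^ k m`, where `q ≥ 5` is a prime not dividing `m`, `m + 2 < q ^ k`, and `k = 1`
or `q` divides `r ^ 2 - 1` for no prime divisor `r` of `m`. Then `N` divides `q ^ 2 - 1`, and if `N` is
odd, it divides `q - 1` or `q + 1` and the symmetry group is cyclic: there is a symmetry `U` such that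
all symmetries are scalar multiples of powers of `U`. -/
theorem result (d : ℕ) [NeZero d] (ψ : ZMod d → ℂ) (hψ : IsFiducial ψ) :
    (Even (symmetryOrder ψ) → ∃ n : ℕ, n ^ 2 = d + 1) ∧
    (∀ p : ℕ, p.Prime → 5 ≤ p → (∀ q : ℕ, q.Prime → q ∣ d → ¬ p ∣ q ^ 2 - 1) →
      ¬ p ∣ symmetryOrder ψ) ∧
    (d ≠ 3 → symmetryOrder ψ ∣ Nat.card {v : ZMod d × ZMod d // addOrderOf v = d}) ∧
    (∀ p k : ℕ, p.Prime → 1 ≤ k → d = p ^ k → d ≠ 3 → d ≠ 8 →
      Odd (symmetryOrder ψ) ∧ (p ≠ 3 → symmetryOrder ψ ∣ p ^ 2 - 1) ∧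
      (p = 3 → symmetryOrder ψ ∣ 9 ∧ (3 ≤ k → symmetryOrder ψ ∣ 3))) ∧
    (∀ q k m : ℕ, q.Prime → 5 ≤ q → 1 ≤ k → d = q ^ k * m → ¬ q ∣ m → m + 2 < q ^ k →
      (k = 1 ∨ ∀ r : ℕ, r.Prime → r ∣ m → ¬ q ∣ r ^ 2 - 1) →
      symmetryOrder ψ ∣ q ^ 2 - 1 ∧ (Odd (symmetryOrder ψ) →
        (symmetryOrder ψ ∣ q - 1 ∨ symmetryOrder ψ ∣ q + 1) ∧
        ∃ U, IsSymmetry ψ U ∧ ∀ W, IsSymmetry ψ W → ∃ (n : ℕ) (c : ℂ), W = c • U ^ n)) := by
  have hf := (fid_iff ψ).1 hψ
  rw [order_eq hψ]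
  refine ⟨fun h => Zk49.SF.even_sq hf h.two_dvd, fun p hp hp5 hq => Zk49.SF.not_dvd hf hp hp5 hq,
    fun hd3 => ?_, fun p k hp hk hd hd3 hd8 => ?_, fun q k m hq hq5 hk hd hqm hm hr => ?_⟩
  · have h1 : Nat.card {v : ZMod d × ZMod d // addOrderOf v = d} =
        (Finset.univ.filter fun v : ZMod d × ZMod d => addOrderOf v = d).card :=
      Nat.subtype_card _ fun v => by simp
    rw [h1]
    exact Zk49.SF.card_dvd hf hd3
  · obtain ⟨k, rfl⟩ := Nat.exists_eq_add_of_le' hk
    refine ⟨Zk49.SF.odd_pp hf hp hd hd3 hd8, fun hp3 => Zk49.SF.pp hf hp hd hp3 hd8,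
      fun hp3 => ?_⟩
    subst hp3
    have hk0 : k ≠ 0 := by rintro rfl; exact hd3 (by rw [hd]; norm_num)
    obtain ⟨k, rfl⟩ := Nat.exists_eq_succ_of_ne_zero hk0
    rcases Nat.eq_zero_or_pos k with rfl | hk1
    · refine ⟨?_, fun h => absurd h (by omega)⟩
      have := Zk49.SF.three_dvd (k := 0) hf (by rw [hd])
      norm_num at this
      exact this
    · obtain ⟨k, rfl⟩ := Nat.exists_eq_add_of_le' hk1
      have h3 := Zk49.SF.three (k := k) hf (by rw [hd])
      exact ⟨h3.trans (by norm_num), fun _ => h3⟩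
  · obtain ⟨h1, h2⟩ := Zk49.SF.struct hf hq hq5 hk hd hqm hm hr
    refine ⟨h1, fun hodd => ?_⟩
    obtain ⟨hcyc, h3⟩ := h2 hodd
    refine ⟨h3, ?_⟩
    obtain ⟨A, hA, hall⟩ := Zk49.SF.gen_of_cyclic hf hcyc
    refine ⟨A, ⟨clifford' hA.uni hA.nrm, 1, by rw [hA.fix, one_smul]⟩, ?_⟩
    rintro W ⟨hC, l, hl⟩
    obtain ⟨h4, h5⟩ := clifford hC
    obtain ⟨hl0, hS⟩ := Zk49.SF.toSy hf h4 h5 hl
    obtain ⟨n, hn⟩ := hall _ hS
    refine ⟨n, l, ?_⟩
    rw [← hn, smul_smul, mul_inv_cancel₀ hl0, one_smul]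

end Pool.Agent.Results.MP_1c78a5_mp.OrderOfTheSymmetryGroup
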