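import Mathlib
import Pool.Agent.Zk49.SF.Brg

/-!
# Clifford symmetries of Weyl–Heisenberg SIC fiducials fix few displacement operators

Let `ψ` be a Weyl–Heisenberg SIC fiducial in dimension `d` and `U` a Clifford unitary with
`U ψ = l ψ` which is not a scalar. Let `κ` be the number of displacement operators `X^a Z^b` with
`U X^a Z^b U^* = c X^a Z^b`. Then `κ ≤ (1 + √(d + 1))^2`; if `U` has prime order `n` modulo scalars,
`(n - 1) κ ≤ d + n √κ`, so that `κ` is at most about `d / (n - 1)`; and for `d ≠ 3` no `X^a Z^b` with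
`(a, b)` of order `d` is fixed.

Idea of the proof. All overlaps are nonzero, so `U` commutes with the operators it fixes. Twirling
`D_q^* U` over the Weyl–Heisenberg group gives `|Tr (D_q^* U)|^2 = κ` or `0`, according as `q` is
orthogonal to all fixed `p` or not. Hence the projection `E` onto the eigenspace of `U` containing
`ψ` has rank at most `(d + (n - 1) √κ) / n`, and is a combination of `d^2 / κ` displacement operators;
as `|⟨ψ, D_q ψ⟩| = 1 / √(d + 1)`, the equation `⟨ψ, E ψ⟩ = 1` and the Cauchy–Schwarz inequality give a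
lower bound for the rank.
-/

set_option autoImplicit false

namespace Pool.Agent.Results.MP_1c78a5_mp.SymmetriesFixFewDisplacements

open Matrix

variable {d : ℕ} [NeZero d]

/-- `ω ^ x` for a residue `x` modulo `d`, where `ω = exp (2 π i / d)` -/
noncomputable def omegaPow (x : ZMod d) : ℂ :=
  Complex.exp (2 * Real.pi * Complex.I * (x.val : ℂ) / (d : ℂ))

/-- the displacement operator `X ^ a Z ^ b`, which maps `|j⟩` to `ω ^ (b j) |j + a⟩` -/
noncomputable def displacement (a b : ZMod d) : Matrix (ZMod d) (ZMod d) ℂ :=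
  Matrix.of fun i j => if i = j + a then omegaPow (b * j) else 0

/-- `ψ` is a Weyl–Heisenberg SIC fiducial: a unit vector with
`|⟨ψ, X ^ a Z ^ b ψ⟩| ^ 2 = 1 / (d + 1)` for all `(a, b) ≠ (0, 0)` -/
def IsFiducial (ψ : ZMod d → ℂ) : Prop :=
  ∑ j, ‖ψ j‖ ^ 2 = 1 ∧ ∀ a b : ZMod d, (a, b) ≠ (0, 0) →
    ‖star ψ ⬝ᵥ (displacement a b *ᵥ ψ)‖ ^ 2 = 1 / ((d : ℝ) + 1)

/-- `U` belongs to the Clifford group: it is unitary and conjugates displacement operators to
displacement operators up to scalars -/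
def IsClifford (U : Matrix (ZMod d) (ZMod d) ℂ) : Prop :=
  U ∈ unitaryGroup (ZMod d) ℂ ∧ ∀ a b : ZMod d, ∃ (a' b' : ZMod d) (c : ℂ),
    U * displacement a b * star U = c • displacement a' b'

/-- `U` is a Clifford symmetry of `ψ`: it belongs to the Clifford group and has `ψ` as an
eigenvector -/
def IsSymmetry (ψ : ZMod d → ℂ) (U : Matrix (ZMod d) (ZMod d) ℂ) : Prop :=
  IsClifford U ∧ ∃ l : ℂ, U *ᵥ ψ = l • ψ

/-- `U` fixes the displacement operator `X ^ a Z ^ b` up to a scalar -/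
def Fixes (U : Matrix (ZMod d) (ZMod d) ℂ) (a b : ZMod d) : Prop :=
  ∃ c : ℂ, U * displacement a b * star U = c • displacement a b

/-- the number of displacement operators fixed by `U` up to scalars -/
noncomputable def fixedCount (U : Matrix (ZMod d) (ZMod d) ℂ) : ℕ :=
  Nat.card {p : ZMod d × ZMod d // Fixes U p.1 p.2}

theorem omegaPow_eq (x : ZMod d) : omegaPow x = R503.SIC.e x := by
  unfold omegaPow R503.SIC.e
  rw [ZMod.stdAddChar_apply, ZMod.toCircle_apply]

theorem displacement_eq (a b : ZMod d) : displacement a b = R503.SIC.Dm a b := by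
  ext i j
  simp only [displacement, R503.SIC.Dm, Matrix.of_apply, omegaPow_eq]

theorem fid_iff (ψ : ZMod d → ℂ) : IsFiducial ψ ↔ R503.SIC.Fid ψ := by
  unfold IsFiducial R503.SIC.Fid
  have h : ∀ a b : ZMod d, star ψ ⬝ᵥ (displacement a b *ᵥ ψ) = R503.SIC.ov ψ a b := by
    intro a b
    rw [displacement_eq]
    exact Zk49.SF.ex_D ψ (a, b)
  simp only [h]

theorem clifford {U : Matrix (ZMod d) (ZMod d) ℂ} (hU : IsClifford U) :
    star U * U = 1 ∧ R503.SIC.Nrm U := by
  have h1 : star U * U = 1 := (Matrix.mem_unitaryGroup_iff').1 hU.1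
  refine ⟨h1, fun a b => ?_⟩
  obtain ⟨a', b', c, h⟩ := hU.2 a b
  refine ⟨a', b', c, ?_⟩
  rw [← displacement_eq, ← displacement_eq, ← Matrix.smul_mul, ← h, mul_assoc, h1, mul_one]

/-- **Clifford symmetries of a fiducial fix few displacement operators.** Let `ψ` be a
Weyl–Heisenberg SIC fiducial in dimension `d` and `U` a Clifford symmetry of `ψ` which is not a
scalar. (1) `U` fixes at most `(1 + √(d + 1)) ^ 2` displacement operators up to scalars. (2) If `U` has
prime order `n` modulo scalars and fixes `κ` displacement operators, `(n - 1) κ ≤ d + n √κ`.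
(3) If `d ≠ 3`, then `U` fixes no `X ^ a Z ^ b` with `(a, b)` of order `d` in `(ℤ / d) ^ 2`. -/
theorem result (d : ℕ) [NeZero d] (ψ : ZMod d → ℂ) (hψ : IsFiducial ψ)
    (U : Matrix (ZMod d) (ZMod d) ℂ) (hU : IsSymmetry ψ U) (hns : ∀ s : ℂ, U ≠ s • 1) :
    (fixedCount U : ℝ) ≤ (1 + √((d : ℝ) + 1)) ^ 2 ∧
    (∀ n : ℕ, n.Prime → (∃ s : ℂ, U ^ n = s • 1) →
      ((n : ℝ) - 1) * fixedCount U ≤ d + n * √(fixedCount U)) ∧
    (d ≠ 3 → ∀ a b : ZMod d, addOrderOf (a, b) = d → ¬ Fixes U a b) := by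
  have hf := (fid_iff ψ).1 hψ
  obtain ⟨hC, l, hl⟩ := hU
  obtain ⟨h1, h2⟩ := clifford hC
  obtain ⟨σ, hσ, hfix, hne, hpow⟩ := Zk49.SF.package hf h1 h2 hl
  have hfix' : ∀ p : ZMod d × ZMod d, Fixes U p.1 p.2 ↔ p ∈ Zk49.SF.Fx σ := by
    intro p
    rw [← hfix p]
    unfold Fixes
    rw [displacement_eq]
    rfl
  have hc : fixedCount U = (Zk49.SF.Fx σ).card :=
    Nat.subtype_card _ fun p => (hfix' p).symm
  rw [hc]
  refine ⟨Zk49.SF.Hs_gen hf hσ (hne hns), fun n hn hs => ?_, fun hd3 a b hab hF => ?_⟩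
  · exact Zk49.SF.Hs_rank hf hσ hn (hpow n hs) (hne hns)
  · exact hne hns (Zk49.SF.free hf hd3 hσ hab (Zk49.SF.mem_Fx.1 ((hfix' (a, b)).1 hF)))

end Pool.Agent.Results.MP_1c78a5_mp.SymmetriesFixFewDisplacements
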